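import Mathlib

set_option autoImplicit false
open Filter Topology

namespace Pool.Agent.Results.MP_6df72f_an.ExtendBasic

variable {𝕜 : Type*} [RCLike 𝕜]

/-- `(y_n)` is a basic sequence: a sequence of nonzero vectors that is a Schauder basis of its closed
linear span, i.e. every `z` in the closed linear span has a unique norm-convergent expansion
`z = ∑ a_n y_n`. -/
def IsBasic (𝕜 : Type*) [RCLike 𝕜] {Y : Type*} [NormedAddCommGroup Y] [NormedSpace 𝕜 Y] (y : ℕ → Y) : Prop :=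
  (∀ n, y n ≠ 0) ∧ ∀ z ∈ (Submodule.span 𝕜 (Set.range y)).topologicalClosure,
    ∃! a : ℕ → 𝕜, Tendsto (fun N => ∑ i ∈ Finset.range N, a i • y i) atTop (𝓝 z)

section Grunblum

variable {Y : Type*} [NormedAddCommGroup Y] [NormedSpace 𝕜 Y]

/-- partial sums -/
def ps (y : ℕ → Y) (a : ℕ → 𝕜) (N : ℕ) : Y := ∑ i ∈ Finset.range N, a i • y i

lemma ps_sub (y : ℕ → Y) (a b : ℕ → 𝕜) (N : ℕ) : ps y (a - b) N = ps y a N - ps y b N := by
  simp [ps, sub_smul, Finset.sum_sub_distrib]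

lemma ps_add (y : ℕ → Y) (a b : ℕ → 𝕜) (N : ℕ) : ps y (a + b) N = ps y a N + ps y b N := by
  simp [ps, add_smul, Finset.sum_add_distrib]

lemma ps_smul (y : ℕ → Y) (c : 𝕜) (b : ℕ → 𝕜) (N : ℕ) : ps y (c • b) N = c • ps y b N := by
  simp [ps, mul_smul, Finset.smul_sum]

lemma ps_bound {y : ℕ → Y} {C : ℝ} (hC : ∀ (a : ℕ → 𝕜) (m N : ℕ), m ≤ N → ‖ps y a m‖ ≤ C * ‖ps y a N‖)
    {a : ℕ → 𝕜} {z : Y} (ha : Tendsto (ps y a) atTop (𝓝 z)) (m : ℕ) : ‖ps y a m‖ ≤ C * ‖z‖ := by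
  have h1 : Tendsto (fun N => C * ‖ps y a N‖) atTop (𝓝 (C * ‖z‖)) := ha.norm.const_mul C
  apply ge_of_tendsto h1
  filter_upwards [eventually_ge_atTop m] with N hN
  exact hC a m N hN

lemma coef_bound {y : ℕ → Y} {C : ℝ} (hC : ∀ (a : ℕ → 𝕜) (m N : ℕ), m ≤ N → ‖ps y a m‖ ≤ C * ‖ps y a N‖)
    {a : ℕ → 𝕜} {z : Y} (ha : Tendsto (ps y a) atTop (𝓝 z)) (i : ℕ) : ‖a i‖ * ‖y i‖ ≤ 2 * C * ‖z‖ := by
  have h1 : a i • y i = ps y a (i+1) - ps y a i := by
    simp [ps, Finset.sum_range_succ]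
  rw [← norm_smul, h1]
  refine (norm_sub_le _ _).trans ?_
  have h2 := ps_bound hC ha (i+1)
  have h3 := ps_bound hC ha i
  linarith

/-- the set of sums -/
def L (y : ℕ → Y) : Submodule 𝕜 Y where
  carrier := {z | ∃ a : ℕ → 𝕜, Tendsto (ps y a) atTop (𝓝 z)}
  add_mem' := by
    rintro z w ⟨a, ha⟩ ⟨b, hb⟩
    refine ⟨a + b, ?_⟩
    have := ha.add hb
    refine this.congr (fun N => (ps_add y a b N).symm)
  zero_mem' := by
    refine ⟨0, ?_⟩
    have : ps y (0 : ℕ → 𝕜) = fun _ => 0 := by ext N; simp [ps]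
    rw [this]
    exact tendsto_const_nhds
  smul_mem' := by
    rintro c z ⟨a, ha⟩
    refine ⟨c • a, ?_⟩
    have := ha.const_smul c
    refine this.congr (fun N => (ps_smul y c a N).symm)

lemma L_closed [CompleteSpace Y] {y : ℕ → Y} (hy : ∀ n, y n ≠ 0) {C : ℝ} (hC0 : 0 ≤ C)
    (hC : ∀ (a : ℕ → 𝕜) (m N : ℕ), m ≤ N → ‖ps y a m‖ ≤ C * ‖ps y a N‖) :
    IsClosed ((L (𝕜 := 𝕜) y : Submodule 𝕜 Y) : Set Y) := by
  rw [← isSeqClosed_iff_isClosed]
  intro z w hz hw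
  choose a ha using hz
  -- coefficients converge
  have hzc : CauchySeq z := hw.cauchySeq
  have hdiff : ∀ k l, Tendsto (ps y (a k - a l)) atTop (𝓝 (z k - z l)) := by
    intro k l
    have := (ha k).sub (ha l)
    exact this.congr (fun N => (ps_sub y (a k) (a l) N).symm)
  have hcoef : ∀ i, ∃ c : 𝕜, Tendsto (fun k => a k i) atTop (𝓝 c) := by
    intro i
    apply cauchySeq_tendsto_of_complete
    rw [Metric.cauchySeq_iff] at hzc ⊢
    intro ε hε
    have hyi : 0 < ‖y i‖ := norm_pos_iff.2 (hy i)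
    obtain ⟨N, hN⟩ := hzc (ε * ‖y i‖ / (2 * C + 1)) (by positivity)
    refine ⟨N, fun k hk l hl => ?_⟩
    have h1 := coef_bound hC (hdiff k l) i
    have h2 := hN k hk l hl
    rw [dist_eq_norm] at h2 ⊢
    rw [lt_div_iff₀ (by positivity)] at h2
    have h3 : ‖(a k - a l) i‖ * ‖y i‖ < ε * ‖y i‖ := by
      nlinarith [norm_nonneg (z k - z l)]
    exact lt_of_mul_lt_mul_right h3 hyi.le
  choose c hc using hcoef
  refine ⟨c, ?_⟩
  -- uniform estimate
  have hps : ∀ m, Tendsto (fun l => ps y (a l) m) atTop (𝓝 (ps y c m)) := by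
    intro m
    unfold ps
    apply tendsto_finsetSum
    intro i _
    exact (hc i).smul_const _
  have hest : ∀ k m, ‖ps y (a k) m - ps y c m‖ ≤ C * ‖z k - w‖ := by
    intro k m
    have h1 : Tendsto (fun l => ‖ps y (a k) m - ps y (a l) m‖) atTop (𝓝 ‖ps y (a k) m - ps y c m‖) :=
      (tendsto_const_nhds.sub (hps m)).norm
    have h2 : Tendsto (fun l => C * ‖z k - z l‖) atTop (𝓝 (C * ‖z k - w‖)) :=
      ((tendsto_const_nhds.sub hw).norm).const_mul C
    apply le_of_tendsto_of_tendsto' h1 h2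
    intro l
    have := ps_bound hC (hdiff k l) m
    rwa [ps_sub] at this
  rw [Metric.tendsto_atTop]
  intro ε hε
  rw [Metric.tendsto_atTop] at hw
  obtain ⟨k, hk⟩ := hw (ε / (2 * (C + 1))) (by positivity)
  have hk' := hk k le_rfl
  have hak := ha k
  rw [Metric.tendsto_atTop] at hak
  obtain ⟨N, hN⟩ := hak (ε / 2) (by positivity)
  refine ⟨N, fun m hm => ?_⟩
  have h1 := hest k m
  have h2 := hN m hm
  rw [dist_eq_norm] at hk' h2 ⊢
  rw [lt_div_iff₀ (by positivity)] at hk'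
  have h3 : ‖ps y c m - w‖ ≤ ‖ps y (a k) m - ps y c m‖ + ‖ps y (a k) m - z k‖ + ‖z k - w‖ := by
    have : ps y c m - w = -(ps y (a k) m - ps y c m) + (ps y (a k) m - z k) + (z k - w) := by abel
    rw [this]
    refine (norm_add_le _ _).trans ?_
    refine add_le_add ((norm_add_le _ _).trans ?_) le_rfl
    rw [norm_neg]
  show ‖ps y c m - w‖ < ε
  nlinarith [norm_nonneg (z k - w)]

lemma grunblum [CompleteSpace Y] {y : ℕ → Y} (hy : ∀ n, y n ≠ 0) {C : ℝ} (hC0 : 0 ≤ C)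
    (hC : ∀ (a : ℕ → 𝕜) (m N : ℕ), m ≤ N → ‖ps y a m‖ ≤ C * ‖ps y a N‖) : IsBasic 𝕜 y := by
  refine ⟨hy, fun z hz => ?_⟩
  have hle : (Submodule.span 𝕜 (Set.range y)).topologicalClosure ≤ L (𝕜 := 𝕜) y := by
    apply Submodule.topologicalClosure_minimal _ _ (L_closed hy hC0 hC)
    rw [Submodule.span_le]
    rintro _ ⟨n, rfl⟩
    refine ⟨Pi.single n 1, ?_⟩
    apply tendsto_const_nhds.congr'
    filter_upwards [eventually_gt_atTop n] with N hN
    unfold ps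
    rw [Finset.sum_eq_single n]
    · simp
    · intro b _ hb; simp [Pi.single_eq_of_ne hb]
    · intro h; exact absurd (Finset.mem_range.2 hN) h
  obtain ⟨a, ha⟩ := hle hz
  refine ⟨a, ha, fun b hb => ?_⟩
  ext i
  have h1 : Tendsto (ps y (b - a)) atTop (𝓝 0) := by
    have hb' : Tendsto (ps y b) atTop (𝓝 z) := hb
    have := hb'.sub ha
    rw [sub_self] at this
    exact this.congr (fun N => (ps_sub y b a N).symm)
  have h2 := coef_bound hC h1 i
  rw [norm_zero, mul_zero] at h2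
  have hyi : 0 < ‖y i‖ := norm_pos_iff.2 (hy i)
  have h3 : ‖(b - a) i‖ = 0 := by
    by_contra hne
    have : 0 < ‖(b - a) i‖ := lt_of_le_of_ne (norm_nonneg _) (Ne.symm hne)
    nlinarith
  have h4 := norm_eq_zero.1 h3
  simpa [sub_eq_zero] using h4

end Grunblum


section Mazur

variable {X : Type*} [NormedAddCommGroup X] [NormedSpace 𝕜 X]

lemma mazur0 (F : Submodule 𝕜 X) [FiniteDimensional 𝕜 F] (Y : Submodule 𝕜 X)
    (hY : ¬ FiniteDimensional 𝕜 Y) {δ : ℝ} (hδ : 0 < δ) :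
    ∃ y ∈ Y, ‖y‖ = 1 ∧ ∀ x ∈ F, ∀ a : 𝕜, (1 - δ) * ‖x‖ ≤ ‖x + a • y‖ := by
  have : ProperSpace F := FiniteDimensional.proper 𝕜 F
  obtain ⟨T, hTs, hTf, hT⟩ := (isCompact_sphere (0 : F) 1).finite_cover_balls hδ
  choose! h hh1 hh2 using fun (t : F) (ht : ‖(t : X)‖ ≠ 0) => exists_dual_vector 𝕜 (t : X) ht
  have : Finite T := hTf
  let Φ : Y →ₗ[𝕜] (T → 𝕜) := LinearMap.pi (fun t => ((h t : X →L[𝕜] 𝕜) : X →ₗ[𝕜] 𝕜) ∘ₗ Y.subtype)
  have hker : LinearMap.ker Φ ≠ ⊥ := by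
    intro hb
    apply hY
    have : Fintype T := Fintype.ofFinite T
    exact FiniteDimensional.of_injective Φ (LinearMap.ker_eq_bot.1 hb)
  obtain ⟨y0, hy0, hne⟩ := (Submodule.ne_bot_iff _).1 hker
  have hne' : (y0 : X) ≠ 0 := by simpa using hne
  have hpos : 0 < ‖(y0 : X)‖ := norm_pos_iff.2 hne'
  have hzero : ∀ t ∈ T, h t (y0 : X) = 0 := by
    intro t ht
    have := congrFun (LinearMap.mem_ker.1 hy0) ⟨t, ht⟩
    simpa [Φ] using this
  refine ⟨((‖(y0:X)‖⁻¹ : ℝ) : 𝕜) • (y0 : X), Y.smul_mem _ y0.2, ?_, ?_⟩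
  · rw [norm_smul, RCLike.norm_ofReal, abs_of_pos (by positivity)]
    field_simp
  · intro x hx a
    rcases (norm_nonneg x).eq_or_lt with h0 | h0
    · rw [← h0, mul_zero]; exact norm_nonneg _
    -- unit vector
    set u : F := ((‖x‖⁻¹ : ℝ) : 𝕜) • (⟨x, hx⟩ : F) with hu
    have hun : ‖u‖ = 1 := by
      rw [hu, norm_smul, RCLike.norm_ofReal, abs_of_pos (by positivity)]
      show ‖x‖⁻¹ * ‖x‖ = 1
      field_simp
    obtain ⟨t, ht, htu⟩ := Set.mem_iUnion₂.1 (hT (show u ∈ Metric.sphere (0:F) 1 by simpa using hun))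
    have htn : ‖(t : X)‖ = 1 := by
      have := hTs ht
      simpa using this
    have hut : ‖(u : X) - t‖ < δ := by
      have := Metric.mem_ball.1 htu
      rw [dist_eq_norm] at this
      exact this
    have hht1 : ‖h t‖ = 1 := hh1 t (by rw [htn]; norm_num)
    have hht2 : h t (t : X) = ((‖(t : X)‖ : ℝ) : 𝕜) := hh2 t (by rw [htn]; norm_num)
    have hx' : x = ((‖x‖ : ℝ) : 𝕜) • (u : X) := by
      rw [hu]
      show x = ((‖x‖ : ℝ) : 𝕜) • (((‖x‖⁻¹ : ℝ) : 𝕜) • x)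
      rw [smul_smul, ← RCLike.ofReal_mul, mul_inv_cancel₀ h0.ne', RCLike.ofReal_one, one_smul]
    have hhu : 1 - δ ≤ ‖h t (u : X)‖ := by
      have e1 : h t (u : X) = 1 + h t ((u : X) - t) := by
        rw [map_sub, hht2, htn]; simp
      have e2 : ‖h t ((u : X) - t)‖ ≤ δ := by
        have := (h t).le_opNorm ((u : X) - t)
        rw [hht1, one_mul] at this
        linarith
      rw [e1]
      have e3 : ‖(1:𝕜)‖ ≤ ‖1 + h t ((u : X) - t)‖ + ‖h t ((u : X) - t)‖ := by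
        have := norm_sub_le (1 + h t ((u : X) - t)) (h t ((u : X) - t))
        simpa using this
      rw [norm_one] at e3
      linarith
    have hval : h t (x + a • ((‖(y0:X)‖⁻¹ : ℝ) : 𝕜) • (y0 : X)) = ((‖x‖ : ℝ) : 𝕜) * h t (u : X) := by
      rw [map_add, map_smul, map_smul, hzero t ht]
      conv_lhs => rw [hx']
      rw [map_smul]
      simp
    have hle := (h t).le_opNorm (x + a • ((‖(y0:X)‖⁻¹ : ℝ) : 𝕜) • (y0 : X))
    rw [hht1, one_mul, hval, norm_mul, RCLike.norm_ofReal, abs_of_pos h0] at hle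
    nlinarith

lemma mazur (F : Submodule 𝕜 X) [FiniteDimensional 𝕜 F] (Y : Submodule 𝕜 X)
    (hY : ¬ FiniteDimensional 𝕜 Y) {δ : ℝ} (hδ : 0 < δ) (hδ1 : δ ≤ 1) (g : X) :
    ∃ f : X, f - g ∈ Y ∧ f ≠ 0 ∧ ∀ x ∈ F, ∀ a : 𝕜, (1 - δ) * ‖x‖ ≤ ‖x + a • f‖ := by
  obtain ⟨y, hyY, hy1, hy⟩ := mazur0 F Y hY (show 0 < δ / 4 by positivity)
  set s : ℝ := 12 * (‖g‖ + 1) / δ with hs
  have hs0 : 0 < s := by positivity
  have hsg : ‖g‖ ≤ s * (δ / 12) := by
    rw [hs]
    have : 12 * (‖g‖ + 1) / δ * (δ / 12) = ‖g‖ + 1 := by field_simp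
    rw [this]; linarith
  have hsn : ‖((s : ℝ) : 𝕜)‖ = s := by rw [RCLike.norm_ofReal, abs_of_pos hs0]
  refine ⟨g + ((s : ℝ) : 𝕜) • y, ?_, ?_, ?_⟩
  · rw [add_sub_cancel_left]; exact Y.smul_mem _ hyY
  · intro h0
    have h1 : ((s : ℝ) : 𝕜) • y = -g := by
      rw [eq_neg_iff_add_eq_zero, add_comm]; exact h0
    have h2 := congrArg norm h1
    rw [norm_smul, hsn, hy1, mul_one, norm_neg] at h2
    nlinarith
  · intro x hx a
    set A : ℝ := ‖a‖ * s with hA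
    have hA0 : 0 ≤ A := by positivity
    have hag : ‖a • g‖ ≤ A * (δ / 12) := by
      rw [norm_smul]
      have := mul_le_mul_of_nonneg_left hsg (norm_nonneg a)
      linarith
    have hay : ‖(a * ((s : ℝ) : 𝕜)) • y‖ = A := by
      rw [norm_smul, norm_mul, hsn, hy1, mul_one]
    have he : x + a • (g + ((s : ℝ) : 𝕜) • y) = (x + (a * ((s : ℝ) : 𝕜)) • y) + a • g := by
      rw [smul_add, smul_smul]; abel
    have h1 : ‖x + (a * ((s : ℝ) : 𝕜)) • y‖ - ‖a • g‖ ≤ ‖x + a • (g + ((s : ℝ) : 𝕜) • y)‖ := by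
      rw [he]
      have := norm_sub_le ((x + (a * ((s : ℝ) : 𝕜)) • y) + a • g) (a • g)
      rw [add_sub_cancel_right] at this
      linarith
    rcases le_or_gt A (3 * ‖x‖) with hc | hc
    · have h2 := hy x hx (a * ((s : ℝ) : 𝕜))
      nlinarith [norm_nonneg x]
    · have h2 : A - ‖x‖ ≤ ‖x + (a * ((s : ℝ) : 𝕜)) • y‖ := by
        have := norm_sub_le (x + (a * ((s : ℝ) : 𝕜)) • y) x
        rw [add_sub_cancel_left, hay] at this
        linarith
      nlinarith [norm_nonneg x]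

end Mazur

section Build

variable {X : Type*} [NormedAddCommGroup X] [NormedSpace 𝕜 X]

lemma mazurL (Y : Submodule 𝕜 X) (hY : ¬ FiniteDimensional 𝕜 Y) (L : List X) (n : ℕ) (g : X) :
    ∃ f : X, f - g ∈ Y ∧ f ≠ 0 ∧ ∀ x ∈ Submodule.span 𝕜 {z | z ∈ L}, ∀ a : 𝕜,
      (1 - 1 / (((n:ℝ) + 1) * (2 * n + 3))) * ‖x‖ ≤ ‖x + a • f‖ := by
  have : FiniteDimensional 𝕜 (Submodule.span 𝕜 {z | z ∈ L}) :=
    FiniteDimensional.span_of_finite 𝕜 (List.finite_toSet L)
  apply mazur _ Y hY (by positivity)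
  rw [div_le_one (by positivity)]
  nlinarith [Nat.cast_nonneg (α := ℝ) n]

lemma build [CompleteSpace X] (Y : Submodule 𝕜 X) (hY : ¬ FiniteDimensional 𝕜 Y) (g : ℕ → X) :
    ∃ f : ℕ → X, IsBasic 𝕜 f ∧ ∀ n, f n - g n ∈ Y := by
  choose ch h1 h2 h3 using mazurL (𝕜 := 𝕜) Y hY
  let Ls : ℕ → List X := fun n => Nat.rec [] (fun n L => ch L n (g n) :: L) n
  have hLs : ∀ n, Ls (n+1) = ch (Ls n) n (g n) :: Ls n := fun n => rfl
  set f : ℕ → X := fun n => ch (Ls n) n (g n) with hf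
  have hmem : ∀ n i, i < n → f i ∈ Ls n := by
    intro n
    induction n with
    | zero => intro i hi; omega
    | succ n ih =>
      intro i hi
      rw [hLs]
      rcases Nat.lt_succ_iff_lt_or_eq.1 hi with h | h
      · exact List.mem_cons_of_mem _ (ih i h)
      · subst h; exact List.mem_cons_self
  refine ⟨f, grunblum (fun n => h2 _ _ _) (C := 2) (by norm_num) ?_, fun n => h1 _ _ _⟩
  intro a m N hmN
  have hspan : ∀ n, ps f a n ∈ Submodule.span 𝕜 {z | z ∈ Ls n} := by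
    intro n
    apply Submodule.sum_mem
    intro i hi
    exact Submodule.smul_mem _ _ (Submodule.subset_span (hmem n i (Finset.mem_range.1 hi)))
  have hmono : Monotone (fun n : ℕ => (2 - 1 / ((n:ℝ) + 1)) * ‖ps f a n‖) := by
    apply monotone_nat_of_le_succ
    intro n
    have h4 := h3 (Ls n) n (g n) (ps f a n) (hspan n) (a n)
    have h5 : ps f a (n+1) = ps f a n + a n • ch (Ls n) n (g n) := by
      simp [ps, Finset.sum_range_succ, hf]
    rw [← h5] at h4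
    have hr : (0:ℝ) < 2 - 1 / (((n+1:ℕ):ℝ) + 1) := by
      have : 1 / (((n+1:ℕ):ℝ) + 1) ≤ 1 := by
        rw [div_le_one (by positivity)]; push_cast; linarith [Nat.cast_nonneg (α := ℝ) n]
      linarith
    have h6 := mul_le_mul_of_nonneg_left h4 hr.le
    refine le_trans (le_of_eq ?_) h6
    rw [← mul_assoc]
    congr 1
    push_cast
    field_simp
    ring
  have h7 := hmono hmN
  simp only at h7
  have h8 : (1:ℝ) ≤ 2 - 1 / ((m:ℝ) + 1) := by
    have : 1 / ((m:ℝ) + 1) ≤ 1 := by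
      rw [div_le_one (by positivity)]; linarith [Nat.cast_nonneg (α := ℝ) m]
    linarith
  have h9 : (2 - 1 / ((N:ℝ) + 1)) ≤ 2 := by
    have : 0 < 1 / ((N:ℝ) + 1) := by positivity
    linarith
  nlinarith [norm_nonneg (ps f a m), norm_nonneg (ps f a N)]

end Build

section Main

variable {E : Type*} [NormedAddCommGroup E] [NormedSpace 𝕜 E]

/-- restriction of functionals. -/
noncomputable def R (G : Submodule 𝕜 E) : (E →L[𝕜] 𝕜) →L[𝕜] (G →L[𝕜] 𝕜) :=
  (ContinuousLinearMap.compL 𝕜 G E 𝕜).flip G.subtypeL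

lemma R_apply (G : Submodule 𝕜 E) (f : E →L[𝕜] 𝕜) : R G f = f.comp G.subtypeL := rfl

lemma exists_ext (G : Submodule 𝕜 E) (φ : G →L[𝕜] 𝕜) : ∃ g : E →L[𝕜] 𝕜, R G g = φ ∧ ‖g‖ = ‖φ‖ := by
  obtain ⟨g, hg1, hg2⟩ := exists_extension_norm_eq G φ
  refine ⟨g, ?_, hg2⟩
  ext x
  exact hg1 x

lemma R_ps (G : Submodule 𝕜 E) (f : ℕ → E →L[𝕜] 𝕜) (φ : ℕ → G →L[𝕜] 𝕜) (h : ∀ n, R G (f n) = φ n)
    (a : ℕ → 𝕜) (N : ℕ) : R G (ps f a N) = ps φ a N := by
  unfold ps
  rw [map_sum]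
  apply Finset.sum_congr rfl
  intro i _
  rw [map_smul, h]

lemma fin_case (G : Submodule 𝕜 E) [FiniteDimensional 𝕜 (LinearMap.ker (R G : (E →L[𝕜] 𝕜) →ₗ[𝕜] (G →L[𝕜] 𝕜)))]
    (φ : ℕ → G →L[𝕜] 𝕜) (hφ : IsBasic 𝕜 φ) :
    ∃ f : ℕ → E →L[𝕜] 𝕜, IsBasic 𝕜 f ∧ ∀ n, R G (f n) = φ n := by
  obtain ⟨P, hP⟩ := Submodule.ClosedComplemented.of_finiteDimensional
    (LinearMap.ker (R G : (E →L[𝕜] 𝕜) →ₗ[𝕜] (G →L[𝕜] 𝕜)))
  choose g hg1 hg2 using exists_ext (𝕜 := 𝕜) G
  let Q : (E →L[𝕜] 𝕜) →L[𝕜] (E →L[𝕜] 𝕜) := ContinuousLinearMap.id 𝕜 _ - (Submodule.subtypeL _).comp P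
  have hQ : ∀ x, Q x = x - (P x : E →L[𝕜] 𝕜) := fun x => rfl
  have hRP : ∀ x, R G (P x : E →L[𝕜] 𝕜) = 0 := fun x => LinearMap.mem_ker.1 (P x).2
  have hRQ : ∀ x, R G (Q x) = R G x := by
    intro x; rw [hQ, map_sub, hRP, sub_zero]
  have hQker : ∀ x, R G x = 0 → Q x = 0 := by
    intro x hx
    have := hP ⟨x, LinearMap.mem_ker.2 hx⟩
    rw [hQ]
    have h2 : (P x : E →L[𝕜] 𝕜) = x := by
      have := congrArg Subtype.val this
      simpa using this
    rw [h2, sub_self]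
  have hQQ : ∀ x, Q (Q x) = Q x := by
    intro x
    have : Q (Q x - x) = 0 := hQker _ (by rw [map_sub, hRQ, sub_self])
    rw [map_sub, sub_eq_zero] at this
    exact this
  have hest : ∀ w, Q w = w → ‖w‖ ≤ ‖Q‖ * ‖R G w‖ := by
    intro w hw
    have h1 : Q (w - g (R G w)) = 0 := hQker _ (by rw [map_sub, hg1, sub_self])
    rw [map_sub, sub_eq_zero, hw] at h1
    rw [h1]
    have h2 := Q.le_opNorm (g (R G w))
    rw [hg2] at h2
    rw [← h1]
    rw [← h1] at h2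
    exact h2
  set f : ℕ → E →L[𝕜] 𝕜 := fun n => Q (g (φ n)) with hf
  have hRf : ∀ n, R G (f n) = φ n := fun n => by rw [hf]; simp only; rw [hRQ, hg1]
  refine ⟨f, ⟨?_, ?_⟩, hRf⟩
  · intro n h0
    apply hφ.1 n
    rw [← hRf n, h0, map_zero]
  · intro z hz
    have hQf : ∀ x ∈ (Submodule.span 𝕜 (Set.range f)).topologicalClosure, Q x = x := by
      have hle : (Submodule.span 𝕜 (Set.range f)).topologicalClosure ≤
          LinearMap.eqLocus (Q : (E →L[𝕜] 𝕜) →ₗ[𝕜] (E →L[𝕜] 𝕜)) LinearMap.id := by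
        apply Submodule.topologicalClosure_minimal
        · rw [Submodule.span_le]
          rintro _ ⟨n, rfl⟩
          exact hQQ _
        · exact isClosed_eq Q.continuous continuous_id
      intro x hx
      exact hle hx
    have hRz : R G z ∈ (Submodule.span 𝕜 (Set.range φ)).topologicalClosure := by
      have hle : (Submodule.span 𝕜 (Set.range f)).topologicalClosure ≤
          ((Submodule.span 𝕜 (Set.range φ)).topologicalClosure).comap
            (R G : (E →L[𝕜] 𝕜) →ₗ[𝕜] (G →L[𝕜] 𝕜)) := by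
        apply Submodule.topologicalClosure_minimal
        · rw [Submodule.span_le]
          rintro _ ⟨n, rfl⟩
          have hmem : R G (f n) ∈ (Submodule.span 𝕜 (Set.range φ)).topologicalClosure := by
            rw [hRf]
            exact Submodule.le_topologicalClosure _ (Submodule.subset_span ⟨n, rfl⟩)
          exact hmem
        · exact (Submodule.isClosed_topologicalClosure _).preimage (R G).continuous
      exact hle hz
    obtain ⟨a, ha, hau⟩ := hφ.2 _ hRz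
    have hsp : ∀ N, ps f a N ∈ (Submodule.span 𝕜 (Set.range f)).topologicalClosure := by
      intro N
      apply Submodule.le_topologicalClosure
      apply Submodule.sum_mem
      intro i _
      exact Submodule.smul_mem _ _ (Submodule.subset_span ⟨i, rfl⟩)
    refine ⟨a, ?_, ?_⟩
    · show Tendsto (ps f a) atTop (𝓝 z)
      rw [tendsto_iff_norm_sub_tendsto_zero]
      have ha' : Tendsto (ps φ a) atTop (𝓝 (R G z)) := ha
      rw [tendsto_iff_norm_sub_tendsto_zero] at ha'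
      have h3 := ha'.const_mul ‖Q‖
      rw [mul_zero] at h3
      apply squeeze_zero (fun _ => norm_nonneg _) _ h3
      intro N
      have h4 := hest (ps f a N - z) (hQf _ (Submodule.sub_mem _ (hsp N) hz))
      rwa [map_sub, R_ps G f φ hRf] at h4
    · intro b hb
      apply hau
      have h5 := ((R G).continuous.tendsto z).comp hb
      refine h5.congr (fun N => ?_)
      exact R_ps G f φ hRf b N

/-- **Basic sequences in `G*` extend to basic sequences in `E*`.** For every Banach space `E`, every closed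
subspace `G` of `E` and every basic sequence `(φ_n)` in `G*` there is a basic sequence `(f_n)` in `E*`
with `f_n|_G = φ_n` for all `n`. -/
theorem result (𝕜 : Type*) [RCLike 𝕜] (E : Type*) [NormedAddCommGroup E] [NormedSpace 𝕜 E]
    [CompleteSpace E] (G : Submodule 𝕜 E) (_hG : IsClosed (G : Set E))
    (φ : ℕ → G →L[𝕜] 𝕜) (hφ : IsBasic 𝕜 φ) :
    ∃ f : ℕ → E →L[𝕜] 𝕜, IsBasic 𝕜 f ∧ ∀ n, (f n).comp G.subtypeL = φ n := by
  by_cases hfin : FiniteDimensional 𝕜 (LinearMap.ker (R G : (E →L[𝕜] 𝕜) →ₗ[𝕜] (G →L[𝕜] 𝕜)))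
  · exact fin_case G φ hφ
  · choose g hg1 hg2 using exists_ext (𝕜 := 𝕜) G
    obtain ⟨f, hf, hfg⟩ := build (𝕜 := 𝕜) _ hfin (fun n => g (φ n))
    refine ⟨f, hf, fun n => ?_⟩
    have h1 : R G (f n - g (φ n)) = 0 := LinearMap.mem_ker.1 (hfg n)
    rw [map_sub, sub_eq_zero, hg1] at h1
    exact h1

end Main

end Pool.Agent.Results.MP_6df72f_an.ExtendBasic
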